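import Pool.Agent.J4H49.OL.Tri

/-!
# MP_91fc16_co: triangle-free graphs whose linear-size sets see all sets of size `ε ^ K n`, `K < 2`

Q1 asks for a constant `c = c(H) > 0` such that for every `ε` every induced-`H`-free graph on `n ≥ 2`
vertices has disjoint sets `A`, `B` with `|A| ≥ c n`, `|B| ≥ ε ^ c n` and a density `≤ ε` or
`≥ 1 - ε` between them. We prove the negated form, with `H = K_3`: for every `c > 0` there are `ε`
and a triangle-free graph for which the density is in `(ε, 1 - ε)` for all such pairs. The exponent of
`ε` may be separated from the constant `c`: the same holds for all `c > 0` and all exponents `K < 2`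
(the negated form is the case `K = c`; there are no pairs at all if `c ≥ 1`, as `A` and `B` are
disjoint). So, if the two constants are allowed to be different, the exponent for `H = K_3` has to be
at least two.

The graphs: the vertices are the vectors of `F ^ 3`, where `F` is a field with `q = 2 ^ k` elements;
`u` and `v` are adjacent if `u + v = (x y, x y ^ 2, x y ^ 3)` for some `x` with trace one and some
`y ≠ 0`. Three such vectors never have the sum zero (Vandermonde, and `1 + 1 + 1 ≠ 0` for the traces
if the three `y` are equal). The nontrivial eigenvalues are at most `3 q` in absolute value as a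
polynomial of degree three takes each value at most three times, and the trivial one is
`q (q - 1) / 2`; so all pairs with `|A| |B| ≥ 2304 q ^ 4` have a density between `3 p / 4` and
`5 p / 4`, `p = (q - 1) / (2 q ^ 2)`, and `ε = 1 / (8 q)`.
-/

set_option autoImplicit false

namespace Pool.Agent.Results.MP_91fc16_co.TriangleFree

open Pool.Agent.J4H49.OL

/-- For all `c > 0` and `K < 2` (and for `c ≥ 1` and every `K`, for instance `K = c`) there are
`0 < ε < 1` and a triangle-free graph `G` on `n ≥ 2` vertices such that for all disjoint sets `A`,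
`B` with `|A| ≥ c n` and `|B| ≥ ε ^ K n` the density of the edges between `A` and `B` is larger than
`ε` and smaller than `1 - ε`. -/
theorem result (c K : ℝ) (hc : 0 < c) (hK : K < 2 ∨ 1 ≤ c) :
    ∃ ε : ℝ, 0 < ε ∧ ε < 1 ∧
      ∃ (V : Type) (_ : Fintype V) (_ : DecidableEq V) (G : SimpleGraph V) (_ : DecidableRel G.Adj),
        2 ≤ Fintype.card V ∧ G.CliqueFree 3 ∧
        ∀ A B : Finset V, Disjoint A B → c * (Fintype.card V : ℝ) ≤ (A.card : ℝ) →
          ε ^ K * (Fintype.card V : ℝ) ≤ (B.card : ℝ) →
          ε < (G.edgeDensity A B : ℝ) ∧ (G.edgeDensity A B : ℝ) < 1 - ε := by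
  by_cases hc1 : 1 ≤ c
  · refine ⟨1 / 2, by norm_num, by norm_num, Fin 2, inferInstance, inferInstance, ⊥, inferInstance,
      by simp, ?_, ?_⟩
    · exact SimpleGraph.cliqueFree_bot (by norm_num)
    · intro A B hAB hA hB
      exfalso
      have h1 : 0 < ((1 / 2 : ℝ) ^ K) * (Fintype.card (Fin 2) : ℝ) := by positivity
      have h2 : (0 : ℝ) < B.card := lt_of_lt_of_le h1 hB
      have h3 : (A.card : ℝ) + B.card ≤ (Fintype.card (Fin 2) : ℝ) := by
        have := Finset.card_le_univ (A ∪ B)
        rw [Finset.card_union_of_disjoint hAB] at this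
        exact_mod_cast this
      have h4 : (0 : ℝ) ≤ (Fintype.card (Fin 2) : ℝ) := Nat.cast_nonneg _
      nlinarith
  · have hK2 : K < 2 := hK.resolve_right hc1
    have ht : Filter.Tendsto (fun k : ℕ => (8 * (2 : ℝ) ^ k) ^ (2 - K)) Filter.atTop Filter.atTop :=
      (tendsto_rpow_atTop (by linarith)).comp
        ((tendsto_pow_atTop_atTop_of_one_lt one_lt_two).const_mul_atTop (by norm_num))
    obtain ⟨k, hk, hk1⟩ := ((ht.eventually_ge_atTop (147456 / c)).and
      (Filter.eventually_ge_atTop 1)).exists
    have : Fact (Nat.Prime 2) := ⟨Nat.prime_two⟩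
    let F := GaloisField 2 k
    let _ : Fintype F := Fintype.ofFinite F
    let _ : DecidableEq F := Classical.decEq F
    have hcard : Fintype.card F = 2 ^ k := by
      rw [← Nat.card_eq_fintype_card]
      exact GaloisField.card 2 k (by omega)
    set q : ℝ := (2 : ℝ) ^ k with hq
    have hqF : (Fintype.card F : ℝ) = q := by rw [hcard]; push_cast; rfl
    have hq2 : 2 ≤ q := by
      rw [hq]
      calc (2 : ℝ) = 2 ^ 1 := by norm_num
        _ ≤ 2 ^ k := pow_le_pow_right₀ (by norm_num) hk1
    have hq0 : 0 < q := by linarith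
    have hcV : (Fintype.card (F × F × F) : ℝ) = q ^ 3 := by
      rw [Fintype.card_prod, Fintype.card_prod]
      push_cast
      rw [hqF]
      ring
    have hp : dens F = (q - 1) / (2 * q ^ 2) := by
      unfold dens
      rw [hqF]
    have hp1 : 1 / (4 * q) ≤ dens F := by
      rw [hp, div_le_div_iff₀ (by positivity) (by positivity)]
      nlinarith
    have hp2 : dens F ≤ 1 / (2 * q) := by
      rw [hp, div_le_div_iff₀ (by positivity) (by positivity)]
      nlinarith
    refine ⟨1 / (8 * q), by positivity, ?_, F × F × F, inferInstance, inferInstance, Gr F,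
      Classical.decRel _, ?_, cliqueFree, ?_⟩
    · rw [div_lt_one (by positivity)]
      linarith
    · have : (2 : ℝ) ≤ (Fintype.card (F × F × F) : ℝ) := by
        rw [hcV]
        nlinarith [sq_nonneg q, mul_pos hq0 hq0]
      exact_mod_cast this
    · intro A B hAB hA hB
      rw [hcV] at hA hB
      have hε : (1 / (8 * q) : ℝ) ^ K = ((8 * q) ^ K)⁻¹ := by
        rw [one_div, Real.inv_rpow (by positivity)]
      have hAp : 0 < (A.card : ℝ) := lt_of_lt_of_le (by positivity) hA
      have hBp : 0 < (B.card : ℝ) := lt_of_lt_of_le (by positivity) hB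
      have hmul : c * q ^ 3 * ((1 / (8 * q) : ℝ) ^ K * q ^ 3) ≤ (A.card : ℝ) * B.card :=
        mul_le_mul hA hB (by positivity) hAp.le
      have hrp : (8 * q) ^ (2 - K) = (8 * q) ^ 2 * ((8 * q) ^ K)⁻¹ := by
        rw [Real.rpow_sub (by positivity), div_eq_mul_inv]
        norm_num
      rw [hrp, div_le_iff₀ hc] at hk
      have hbig : 2304 * q ^ 4 ≤ (A.card : ℝ) * B.card := by
        refine le_trans ?_ hmul
        rw [hε]
        have h1 : (2304 : ℝ) ≤ c * q ^ 2 * ((8 * q) ^ K)⁻¹ := by nlinarith
        have h2 : (0 : ℝ) ≤ q ^ 4 := by positivity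
        calc 2304 * q ^ 4 ≤ (c * q ^ 2 * ((8 * q) ^ K)⁻¹) * q ^ 4 :=
              mul_le_mul_of_nonneg_right h1 h2
          _ = _ := by ring
      have hvar := variance (fun u : F × F × F => if u ∈ A then (1 : ℝ) else 0)
      have hsum : ∑ u : F × F × F, (if u ∈ A then (1 : ℝ) else 0) = (A.card : ℝ) := by
        simp
      have hsum2 : ∑ u : F × F × F, (if u ∈ A then (1 : ℝ) else 0) ^ 2 = (A.card : ℝ) := by
        rw [← hsum]
        refine Finset.sum_congr rfl fun u _ => ?_
        split_ifs <;> norm_num
      rw [hsum, hsum2, hqF] at hvar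
      have hpos : 0 < dens F := lt_of_lt_of_le (by positivity) hp1
      let _ : DecidableRel (Gr F).Adj := Classical.decRel _
      have hmain := density_close (Gr F) A B
        (fun v => R (fun u => if u ∈ A then (1 : ℝ) else 0) v) (dens F) (9 * q ^ 2) hpos
        (fun v _ => by rw [R_ind]) hvar hAp hBp (by
          have h1 : (1 / (4 * q)) ^ 2 ≤ dens F ^ 2 := pow_le_pow_left₀ (by positivity) hp1 2
          have h2 : (1 / (4 * q)) ^ 2 * (2304 * q ^ 4) ≤ dens F ^ 2 * ((A.card : ℝ) * B.card) :=
            mul_le_mul h1 hbig (by positivity) (by positivity)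
          have h3 : (1 / (4 * q)) ^ 2 * (2304 * q ^ 4) = 16 * (9 * q ^ 2) := by
            field_simp
            ring
          linarith)
      rw [abs_le] at hmain
      have h5 : 1 / (4 * q) = 2 * (1 / (8 * q)) := by
        field_simp
        norm_num
      have h6 : 1 / (2 * q) = 4 * (1 / (8 * q)) := by
        field_simp
        norm_num
      have h7 : 0 < 1 / (8 * q) := by positivity
      have h8 : 1 / (8 * q) ≤ 1 / 16 := by
        apply one_div_le_one_div_of_le <;> linarith
      rw [h5] at hp1
      rw [h6] at hp2
      constructor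
      · linarith [hmain.1]
      · linarith [hmain.2]

end Pool.Agent.Results.MP_91fc16_co.TriangleFree
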