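import Pool.Agent.J4H49.OL.Crown

/-!
# MP_91fc16_co: no exponent works for all graphs `H`

Q1 asks whether for every graph `H` there is a constant `c` such that for every `ε` every
induced-`H`-free graph on `n ≥ 2` vertices has disjoint sets `A`, `B` with `|A| ≥ c n`,
`|B| ≥ ε ^ c n` and a density `≤ ε` or `≥ 1 - ε` between them. Separate the two roles of `c`, and let
`K` be the exponent of `ε`. We prove that for every `K` there is a graph `H` (the complete bipartite
graph with `k + k` vertices minus a perfect matching, `k = ⌈K⌉ + 4`) such that for every `c > 0`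
there are `ε` and an induced-`H`-free graph for which the density is in `(ε, 1 - ε)` for all disjoint
`A`, `B` with `|A| ≥ c n` and `|B| ≥ ε ^ K n`. So the exponent has to depend on `H`, and for these
graphs it is at least `k - 4`.

The graphs: the vertices are the pairs `(x, y)`, `x` in `F ^ (m + 1)`, `y` in `F`, where `F` is the
field with `q` elements, `q` a large prime number, `m = ⌈K⌉`; `(x, y)` and `(x', y')` are adjacent if
they are different and `y + y' = x · x'`. Two different vertices have at most `q ^ m` common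
neighbours, so the degrees into a set `A` have a small variance, and the density is close to `1 / q`
if `|A| |B| ≥ 16 q ^ (m + 3)`; here `ε = 1 / (2 q)`. The matrix of the numbers `y + y' - x · x'` has
rank at most `m + 3`, but an induced copy of `H` would give a diagonal submatrix of rank `k`.
-/

set_option autoImplicit false

namespace Pool.Agent.Results.MP_91fc16_co.UnboundedExponent

open Pool.Agent.J4H49.OL

/-- For every `K` there is a finite graph `H` such that for every `c > 0` there are `0 < ε < 1` and an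
induced-`H`-free graph `G` on `n ≥ 2` vertices such that for all disjoint sets `A`, `B` with
`|A| ≥ c n` and `|B| ≥ ε ^ K n` the density of the edges between `A` and `B` is larger than `ε` and
smaller than `1 - ε`. -/
theorem result (K : ℝ) :
    ∃ (W : Type) (_ : Fintype W) (H : SimpleGraph W), Fintype.card W = 2 * (⌈K⌉₊ + 4) ∧
      ∀ c : ℝ, 0 < c → ∃ ε : ℝ, 0 < ε ∧ ε < 1 ∧
      ∃ (V : Type) (_ : Fintype V) (_ : DecidableEq V) (G : SimpleGraph V) (_ : DecidableRel G.Adj),
        2 ≤ Fintype.card V ∧ IsEmpty (H ↪g G) ∧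
        ∀ A B : Finset V, Disjoint A B → c * (Fintype.card V : ℝ) ≤ (A.card : ℝ) →
          ε ^ K * (Fintype.card V : ℝ) ≤ (B.card : ℝ) →
          ε < (G.edgeDensity A B : ℝ) ∧ (G.edgeDensity A B : ℝ) < 1 - ε := by
  set m : ℕ := ⌈K⌉₊ with hm
  have hKm : K < (m : ℝ) + 1 := lt_of_le_of_lt (Nat.le_ceil K) (lt_add_one _)
  refine ⟨Fin (m + 4) × Bool, inferInstance, crown (m + 4), ?_, fun c hc => ?_⟩
  · rw [Fintype.card_prod, Fintype.card_fin, Fintype.card_bool]
    ring
  have ht : Filter.Tendsto (fun r : ℕ => (2 * (r : ℝ)) ^ ((m : ℝ) + 1 - K)) Filter.atTop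
      Filter.atTop :=
    (tendsto_rpow_atTop (by linarith)).comp
      (tendsto_natCast_atTop_atTop.const_mul_atTop (by norm_num))
  obtain ⟨N, hN⟩ := Filter.eventually_atTop.1 (ht.eventually_ge_atTop (16 * 2 ^ (m + 1) / c))
  obtain ⟨r, hrN, hrp⟩ := Nat.exists_infinite_primes (max N 2)
  have hk := hN r (le_trans (le_max_left _ _) hrN)
  have hr2 : 2 ≤ r := le_trans (le_max_right _ _) hrN
  have : Fact r.Prime := ⟨hrp⟩
  have hqF : (Fintype.card (ZMod r) : ℝ) = r := by rw [ZMod.card]
  set q : ℝ := (r : ℝ) with hq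
  have hq2 : 2 ≤ q := by
    rw [hq]
    exact_mod_cast hr2
  have hq0 : 0 < q := by linarith
  have hcV : (Fintype.card ((Fin (m + 1) → ZMod r) × ZMod r) : ℝ) = q ^ (m + 2) := by
    rw [Fintype.card_prod, Fintype.card_fun, Fintype.card_fin]
    push_cast
    rw [hqF]
    ring
  refine ⟨1 / (2 * q), by positivity, ?_, (Fin (m + 1) → ZMod r) × ZMod r, inferInstance,
    inferInstance, Gc (ZMod r) (m + 1), Classical.decRel _, ?_, no_crown _ (by omega), ?_⟩
  · rw [div_lt_one (by positivity)]
    linarith
  · have : (2 : ℝ) ≤ (Fintype.card ((Fin (m + 1) → ZMod r) × ZMod r) : ℝ) := by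
      rw [hcV]
      calc (2 : ℝ) ≤ q := hq2
        _ = q ^ 1 := (pow_one q).symm
        _ ≤ q ^ (m + 2) := pow_le_pow_right₀ (by linarith) (by omega)
    exact_mod_cast this
  · intro A B hAB hA hB
    rw [hcV] at hA hB
    have hε : (1 / (2 * q) : ℝ) ^ K = ((2 * q) ^ K)⁻¹ := by
      rw [one_div, Real.inv_rpow (by positivity)]
    have hAp : 0 < (A.card : ℝ) := lt_of_lt_of_le (by positivity) hA
    have hBp : 0 < (B.card : ℝ) := lt_of_lt_of_le (by positivity) hB
    have hmul : c * q ^ (m + 2) * ((1 / (2 * q) : ℝ) ^ K * q ^ (m + 2)) ≤ (A.card : ℝ) * B.card :=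
      mul_le_mul hA hB (by positivity) hAp.le
    have hrp : (2 * q) ^ ((m : ℝ) + 1 - K) = (2 * q) ^ (m + 1) * ((2 * q) ^ K)⁻¹ := by
      rw [Real.rpow_sub (by positivity), div_eq_mul_inv]
      congr 1
      rw [← Real.rpow_natCast]
      push_cast
      rfl
    rw [hrp, div_le_iff₀ hc, mul_pow] at hk
    have hbig : 16 * q ^ (m + 3) ≤ (A.card : ℝ) * B.card := by
      refine le_trans ?_ hmul
      rw [hε]
      have h1 : (16 : ℝ) ≤ c * q ^ (m + 1) * ((2 * q) ^ K)⁻¹ := by
        have h2 : (0 : ℝ) < 2 ^ (m + 1) := by positivity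
        have h3 : 16 * (2 : ℝ) ^ (m + 1) ≤ (c * q ^ (m + 1) * ((2 * q) ^ K)⁻¹) * 2 ^ (m + 1) := by
          calc 16 * (2 : ℝ) ^ (m + 1) ≤ 2 ^ (m + 1) * q ^ (m + 1) * ((2 * q) ^ K)⁻¹ * c := hk
            _ = _ := by ring
        exact le_of_mul_le_mul_right h3 h2
      have h2 : (0 : ℝ) ≤ q ^ (m + 3) := by positivity
      calc 16 * q ^ (m + 3) ≤ (c * q ^ (m + 1) * ((2 * q) ^ K)⁻¹) * q ^ (m + 3) :=
            mul_le_mul_of_nonneg_right h1 h2
        _ = _ := by ring
    have hvar := variance_crown A
    rw [hqF] at hvar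
    let _ : DecidableRel (Gc (ZMod r) (m + 1)).Adj := Classical.decRel _
    have hmain := density_close (Gc (ZMod r) (m + 1)) A B (fun v => (rr A v : ℝ)) (1 / q)
      (q ^ (m + 1)) (by positivity) (fun v hv => by
        unfold rr
        congr 2
        refine Finset.filter_congr fun a ha => ?_
        have hne : a ≠ v := fun h => Finset.disjoint_left.1 hAB ha (h ▸ hv)
        exact ⟨fun h => ⟨hne, h⟩, fun h => h.2⟩) hvar hAp hBp (by
        have h1 : (1 / q) ^ 2 * (16 * q ^ (m + 3)) ≤ (1 / q) ^ 2 * ((A.card : ℝ) * B.card) :=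
          mul_le_mul_of_nonneg_left hbig (by positivity)
        have h3 : (1 / q) ^ 2 * (16 * q ^ (m + 3)) = 16 * q ^ (m + 1) := by
          field_simp
          ring
        linarith)
    rw [abs_le] at hmain
    have h5 : 1 / q = 2 * (1 / (2 * q)) := by
      field_simp
    have h7 : 0 < 1 / (2 * q) := by positivity
    have h8 : 1 / (2 * q) ≤ 1 / 4 := by
      apply one_div_le_one_div_of_le <;> linarith
    rw [h5] at hmain
    constructor
    · linarith [hmain.1]
    · linarith [hmain.2]

end Pool.Agent.Results.MP_91fc16_co.UnboundedExponent
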